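import Pool.Agent.Lib.MP_3240be_co.P57.Two
import Pool.Agent.Lib.MP_3240be_co.P57.Pone

/-!
# MP_3240be_co, T4 (finding 4844), row R3: the gadgets have no copy of a maximal rigid graph, and
the first alternative of the leaf lemma

`gqfree`: if every copy of `D` in `H - X'` contains a special pair, the blue gadgets have no `D`.
`alt1`: if some `t ∈ X₀` is such that every copy of `D` that meets `X₀` only in `t` has an edge
off `t` whose ends have no neighbour in `X₀ - t`, then `X' = X₀ - t` and these edges do.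
-/

set_option autoImplicit false

namespace MP3240L27

open Finset Function MP3240T MP3240W MP3240CO MP3240R
open MP3240C (CxB)
open MP3240X (VQ cq)
open MP3240K (IsE)
open Pool.Agent.Lib.MP_3240be_co.H36.Chrom (Sparse)

theorem gqfree {n d s p : ℕ} {H : SimpleGraph (Fin n)} {D : SimpleGraph (Fin d)}
    (hD : MaxR H p D) {X' : Finset (Fin n)} {xs ys : Fin s → Fin n} (hX : XG H X' xs ys)
    (hfree : ∀ f, IsE D H f → (∀ i, f i ∉ X') → ∃ j i i', f i = xs j ∧ f i' = ys j) :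
    GQFree H D X' xs ys p := by
  intro Bl J C ty io R A hio hS hR hA F hF hinn hnear hadj
  have hX0 : XG H ∅ xs ys := ⟨hX.adj, fun _ _ h => absurd h (notMem_empty _), hX.ind⟩
  have hw : ∀ u b w, F u = .b b w → ∀ j, w ≠ xs j ∧ w ≠ ys j :=
    fun u b w h => (hinn u b w h).2
  obtain ⟨b, hb⟩ := hD.rig.e2 s xs ys Bl J C ty io R A F
    ⟨hX0, hio, hS, hR, hA, hF, hw, hnear, hadj⟩
  have hg : Injective (fun u => posB xs ys ty b (F u)) :=
    fun u v huv => hF (posB_inj hX0 (hb u) (hb v) (hw u) (hw v) huv)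
  have hga : ∀ u v, D.Adj u v → H.Adj (posB xs ys ty b (F u)) (posB xs ys ty b (F v)) :=
    fun u v h => posB_adj (hb u) (hb v) (hadj u v h)
  have hgX : ∀ i, posB xs ys ty b (F i) ∉ X' := by
    intro i hi
    rcases hb i with ⟨w, h⟩ | ⟨j, h | h⟩
    · rw [h, posB_b] at hi
      exact (hinn i b w h).1 hi
    · rw [h, posB_fst] at hi
      exact (hX.off j _ hi).1 rfl
    · rw [h, posB_snd] at hi
      exact (hX.off j _ hi).2.1 rfl
  obtain ⟨j, i, i', h1, h2⟩ := hfree _ ⟨hg, hga⟩ hgX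
  have k1 : F i = .z j (io b j) (ty b j).fst :=
    posB_inj hX0 (hb i) (Or.inr ⟨j, Or.inl rfl⟩) (hw i) (fun _ _ h => by cases h)
      (h1.trans (posB_fst xs ys ty b j (io b j)).symm)
  have k2 : F i' = .z j (io b j) (ty b j).snd :=
    posB_inj hX0 (hb i') (Or.inr ⟨j, Or.inr rfl⟩) (hw i') (fun _ _ h => by cases h)
      (h2.trans (posB_snd xs ys ty b j (io b j)).symm)
  exact hD.root hX0 F hF hb hw hadj k1 k2

theorem alt0 {n d p : ℕ} {H : SimpleGraph (Fin n)} {D : SimpleGraph (Fin d)}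
    (hD : MaxR H p D) {X₀ : Finset (Fin n)} (hI : Ind H X₀) (hM : Meets H D X₀)
    (hmin : ∀ X, Ind H X → Meets H D X → X₀.card ≤ X.card) {t : Fin n} (ht : t ∈ X₀)
    (hgood : ∀ f, IsE D H f → (∃ i, f i = t) → (∀ i, f i ∈ X₀ → f i = t) →
      ∃ i j, D.Adj i j ∧ f i ≠ t ∧ f j ≠ t ∧
        ∀ x ∈ X₀, x ≠ t → ¬ H.Adj x (f i) ∧ ¬ H.Adj x (f j)) :
    ∃ (X' : Finset (Fin n)) (s : ℕ) (xs ys : Fin s → Fin n), 1 ≤ s ∧ Ind H X' ∧
      X'.card + 1 = X₀.card ∧ XG H X' xs ys ∧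
      ∀ f, IsE D H f → (∀ i, f i ∉ X') → ∃ j i i', f i = xs j ∧ f i' = ys j := by
  classical
  have hIe : Ind H (X₀.erase t) := fun x hx y hy =>
    hI x (mem_of_mem_erase hx) y (mem_of_mem_erase hy)
  have hcard : (X₀.erase t).card + 1 = X₀.card := card_erase_add_one ht
  -- the vertex sets of the copies
  set 𝒜 : Finset (Finset (Fin n)) := univ.filter (fun A => ∃ f, IsE D H f ∧ (∃ i, f i = t) ∧
    (∀ i, f i ∈ X₀ → f i = t) ∧ A = univ.image f) with h𝒜
  have hch : ∀ a : 𝒜, ∃ f, IsE D H f ∧ (∃ i, f i = t) ∧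
      (∀ i, f i ∈ X₀ → f i = t) ∧ (a : Finset (Fin n)) = univ.image f := by
    rintro ⟨A, hA⟩
    exact (mem_filter.1 hA).2
  choose f hf hft hfX hfA using hch
  choose i j hij hi hj hb using fun a => hgood (f a) (hf a) (hft a) (hfX a)
  have hiA : ∀ a : 𝒜, f a (i a) ∈ Set.range (f a) := fun a => ⟨_, rfl⟩
  have hjA : ∀ a : 𝒜, f a (j a) ∈ Set.range (f a) := fun a => ⟨_, rfl⟩
  have hpair : ∀ a b : 𝒜, a ≠ b → (∀ x, x ∈ Set.range (f a) → x ∈ Set.range (f b) → x = t) ∧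
      ∀ x y, x ∈ Set.range (f a) → y ∈ Set.range (f b) → x ≠ t → y ≠ t → ¬ H.Adj x y := by
    intro a b hab
    rcases hD.p1 (f a) (f b) (hf a).1 (hf b).1 (hf a).2 (hf b).2 (hft a) (hft b) with h | h
    · refine absurd (Subtype.ext ?_) hab
      rw [hfA a, hfA b]
      ext x
      have h1 := Set.ext_iff.1 h x
      simpa [mem_image] using h1
    · exact h
  have hXG : XG H (X₀.erase t) (fun k => f (𝒜.equivFin.symm k) (i (𝒜.equivFin.symm k)))
      (fun k => f (𝒜.equivFin.symm k) (j (𝒜.equivFin.symm k))) := by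
    refine ⟨fun k => (hf _).2 _ _ (hij _), ?_, ?_⟩
    · intro k x hx
      have h1 := hb (𝒜.equivFin.symm k) x (mem_of_mem_erase hx) (ne_of_mem_erase hx)
      refine ⟨?_, ?_, h1⟩
      · rintro rfl
        exact hi _ (hfX _ _ (mem_of_mem_erase hx))
      · rintro rfl
        exact hj _ (hfX _ _ (mem_of_mem_erase hx))
    · intro k k' hkk
      have h1 := hpair (𝒜.equivFin.symm k) (𝒜.equivFin.symm k')
        (fun h => hkk (𝒜.equivFin.symm.injective h))
      refine ⟨fun h => hi _ (h1.1 _ (hiA _) (h ▸ hiA _)), fun h => hi _ (h1.1 _ (hiA _) (h ▸ hjA _)),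
        fun h => hj _ (h1.1 _ (hjA _) (h ▸ hiA _)), fun h => hj _ (h1.1 _ (hjA _) (h ▸ hjA _)),
        h1.2 _ _ (hiA _) (hiA _) (hi _) (hi _), h1.2 _ _ (hiA _) (hjA _) (hi _) (hj _),
        h1.2 _ _ (hjA _) (hiA _) (hj _) (hi _), h1.2 _ _ (hjA _) (hjA _) (hj _) (hj _)⟩
  refine ⟨X₀.erase t, 𝒜.card, _, _, ?_, hIe, hcard, hXG, ?_⟩
  · by_contra hs
    have h0 : 𝒜 = ∅ := card_eq_zero.1 (by omega)
    have h1 : Meets H D (X₀.erase t) := by
      intro g hg
      by_contra hno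
      push Not at hno
      have h2 : ∀ k, g k ∈ X₀ → g k = t := by
        intro k hk
        by_contra hkt
        exact hno k (mem_erase.2 ⟨hkt, hk⟩)
      obtain ⟨k, hk⟩ := hM g hg
      have h3 : univ.image g ∈ 𝒜 := mem_filter.2 ⟨mem_univ _, g, hg, ⟨k, h2 k hk⟩, h2, rfl⟩
      rw [h0] at h3
      exact absurd h3 (notMem_empty _)
    have h4 := hmin _ hIe h1
    omega
  · intro g hg hgX
    have h2 : ∀ k, g k ∈ X₀ → g k = t := by
      intro k hk
      by_contra hkt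
      exact hgX k (mem_erase.2 ⟨hkt, hk⟩)
    obtain ⟨k, hk⟩ := hM g hg
    have h3 : univ.image g ∈ 𝒜 := mem_filter.2 ⟨mem_univ _, g, hg, ⟨k, h2 k hk⟩, h2, rfl⟩
    set a : 𝒜 := ⟨_, h3⟩ with ha
    have h4 : univ.image g = univ.image (f a) := hfA a
    have h5 : ∀ x, ∃ k', g k' = f a x := by
      intro x
      have : f a x ∈ univ.image g := by
        rw [h4]
        exact mem_image_of_mem _ (mem_univ _)
      obtain ⟨k', -, hk'⟩ := mem_image.1 this
      exact ⟨k', hk'⟩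
    obtain ⟨k1, hk1⟩ := h5 (i a)
    obtain ⟨k2, hk2⟩ := h5 (j a)
    refine ⟨𝒜.equivFin a, k1, k2, ?_, ?_⟩
    · rw [Equiv.symm_apply_apply]
      exact hk1
    · rw [Equiv.symm_apply_apply]
      exact hk2

theorem alt1 {n d p : ℕ} {H : SimpleGraph (Fin n)} {D : SimpleGraph (Fin d)}
    (hD : MaxR H p D) {X₀ : Finset (Fin n)} (hI : Ind H X₀) (hM : Meets H D X₀)
    (hmin : ∀ X, Ind H X → Meets H D X → X₀.card ≤ X.card) {t : Fin n} (ht : t ∈ X₀)
    (hgood : ∀ f, IsE D H f → (∃ i, f i = t) → (∀ i, f i ∈ X₀ → f i = t) →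
      ∃ i j, D.Adj i j ∧ f i ≠ t ∧ f j ≠ t ∧
        ∀ x ∈ X₀, x ≠ t → ¬ H.Adj x (f i) ∧ ¬ H.Adj x (f j)) :
    ∃ (X' : Finset (Fin n)) (s : ℕ) (xs ys : Fin s → Fin n), 1 ≤ s ∧ Ind H X' ∧
      X'.card + 1 = X₀.card ∧ XG H X' xs ys ∧ GQFree H D X' xs ys p := by
  obtain ⟨X', s, xs, ys, h1, h2, h3, h4, h5⟩ := alt0 hD hI hM hmin ht hgood
  exact ⟨X', s, xs, ys, h1, h2, h3, h4, gqfree hD h4 h5⟩

end MP3240L27
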