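import Pool.Agent.Lib.MP_3240be_co.L27.Gq

/-!
# MP_3240be_co, T4 (findings 4835, 4844, 4872), rows R2 and R3: the leaf lemma

`X₀` is a least independent set meeting all copies of `D`.  If the first alternative (`alt1`) does
not hold, every `t ∈ X₀` has a copy `c t` of `D` meeting `X₀` only in `t` whose edges off `t` have
an end with a neighbour in `X₀ - t`.  A *part* is a set `N` of vertices of the union of the copies
with new positions `pos` in `H` and a star `Pi` of `H` containing the positions of all exits.  A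
least part is the vertex set of one copy, and `D` has a vertex cover with at most three elements.
-/

set_option autoImplicit false

namespace MP3240L27

open Finset Function MP3240T MP3240W MP3240CO MP3240R
open MP3240K (IsE)

/-- Parts. -/
structure Part {n : ℕ} (H : SimpleGraph (Fin n)) (X₀ : Finset (Fin n))
    (A : Fin n → Finset (Fin n)) (N : Finset (Fin n)) (pos : Fin n → Fin n)
    (Pi : Finset (Fin n)) : Prop where
  sub : ∀ v ∈ N, ∃ t ∈ X₀, v ∈ A t
  inj : ∀ u ∈ N, ∀ v ∈ N, pos u = pos v → u = v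
  adj : ∀ u ∈ N, ∀ v ∈ N, H.Adj u v → H.Adj (pos u) (pos v)
  star : Star H Pi
  ex : ∀ v ∈ N, ∀ t ∈ X₀, ∀ u ∈ A t, u ∉ N → H.Adj v u → pos v ∈ Pi
  ex3 : ∀ v ∈ N, ∀ t ∈ X₀, v ∈ A t → ¬ A t ⊆ N → pos v ∈ Pi
  cell : ∃ t ∈ X₀, A t ⊆ N
  few : {x : Fin n | x ∈ Pi ∧ ∃ v ∈ N, pos v = x}.ncard ≤ 2 ∨
    ∃ u ∈ N, ∃ v ∈ N, H.Adj (pos u) (pos v) ∧ ¬ H.Adj u v

/-- The measure of a part. -/
def mu {n : ℕ} (N : Finset (Fin n)) (pos : Fin n → Fin n) (Pi : Finset (Fin n)) : ℕ :=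
  4 * N.card + (Pi \ N.image pos).card

/-- The graph of a part. -/
def gr {n : ℕ} (H : SimpleGraph (Fin n)) (N : Finset (Fin n)) (pos : Fin n → Fin n)
    (Pi : Finset (Fin n)) (z : Fin n) : SimpleGraph {x : Fin n // x ∈ N.image pos ∪ Pi} where
  Adj x y := x ≠ y ∧ ((∃ u ∈ N, ∃ v ∈ N, H.Adj u v ∧ pos u = x ∧ pos v = y) ∨
    (x.1 ∈ Pi ∧ y.1 ∈ Pi ∧ (x.1 = z ∨ y.1 = z)))
  symm := ⟨by
    rintro x y ⟨h, h' | h'⟩
    · obtain ⟨u, hu, v, hv, huv, h1, h2⟩ := h'
      exact ⟨h.symm, Or.inl ⟨v, hv, u, hu, huv.symm, h2, h1⟩⟩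
    · exact ⟨h.symm, Or.inr ⟨h'.2.1, h'.1, h'.2.2.symm⟩⟩⟩
  loopless := ⟨fun x h => h.1 rfl⟩

section
variable {n d p : ℕ} {H : SimpleGraph (Fin n)} {D : SimpleGraph (Fin d)} {X₀ : Finset (Fin n)}
  {c : Fin n → Fin d → Fin n} {N : Finset (Fin n)} {pos : Fin n → Fin n} {Pi : Finset (Fin n)}
  {z : Fin n}

/-- The vertex of `gr` of an element of `N`. -/
def em (N : Finset (Fin n)) (pos : Fin n → Fin n) (Pi : Finset (Fin n)) (v : Fin n) (hv : v ∈ N) :
    {x : Fin n // x ∈ N.image pos ∪ Pi} :=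
  ⟨pos v, mem_union_left _ (mem_image_of_mem pos hv)⟩

/-- The vertex set of the copy `c t`. -/
def cell (c : Fin n → Fin d → Fin n) (t : Fin n) : Finset (Fin n) := univ.image (c t)

theorem mem_cell {t v : Fin n} : v ∈ cell c t ↔ ∃ i, c t i = v := by
  simp [cell]

theorem em_adj (hP : Part H X₀ (cell c) N pos Pi) {u v : Fin n} (hu : u ∈ N) (hv : v ∈ N)
    (h : H.Adj u v) : (gr H N pos Pi z).Adj (em N pos Pi u hu) (em N pos Pi v hv) :=
  ⟨fun h' => h.ne (hP.inj u hu v hv (congrArg Subtype.val h')), Or.inl ⟨u, hu, v, hv, h, rfl, rfl⟩⟩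

theorem gr_sub (hP : Part H X₀ (cell c) N pos Pi) (hz : ∀ x ∈ Pi, x = z ∨ H.Adj z x)
    {x y : {x : Fin n // x ∈ N.image pos ∪ Pi}} (h : (gr H N pos Pi z).Adj x y) :
    H.Adj x.1 y.1 := by
  obtain ⟨hne, ⟨u, hu, v, hv, huv, h1, h2⟩ | ⟨hx, hy, h | h⟩⟩ := h
  · rw [← h1, ← h2]
    exact hP.adj u hu v hv huv
  · rcases hz y.1 hy with h' | h'
    · exact absurd (Subtype.ext (h.trans h'.symm)) hne
    · rw [h]
      exact h'
  · rcases hz x.1 hx with h' | h'
    · exact absurd (Subtype.ext (h'.trans h.symm)) hne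
    · rw [h]
      exact h'.symm

theorem em_reach (hP : Part H X₀ (cell c) N pos Pi) (hcon : D.Connected)
    (hc : ∀ t ∈ X₀, IsE D H (c t)) {t : Fin n} (ht : t ∈ X₀) (hA : cell c t ⊆ N) {u v : Fin n}
    (hu : u ∈ cell c t) (hv : v ∈ cell c t) :
    (gr H N pos Pi z).Reachable (em N pos Pi u (hA hu)) (em N pos Pi v (hA hv)) := by
  obtain ⟨i, rfl⟩ := mem_cell.1 hu
  obtain ⟨j, rfl⟩ := mem_cell.1 hv
  have hm : ∀ k, c t k ∈ N := fun k => hA (mem_cell.2 ⟨k, rfl⟩)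
  have h1 : D.Reachable i j := hcon.preconnected i j
  exact h1.map (⟨fun k => em N pos Pi (c t k) (hm k), fun {a b} hab =>
    em_adj hP (hm a) (hm b) ((hc t ht).2 a b hab)⟩ : D →g gr H N pos Pi z)

theorem mu_lt_of_subset {N' : Finset (Fin n)} {pos' : Fin n → Fin n} {Pi' : Finset (Fin n)}
    (h : N' ⊂ N) (h3 : Pi'.card ≤ 3) : mu N' pos' Pi' < mu N pos Pi := by
  have h1 := card_lt_card h
  have h2 : (Pi' \ N'.image pos').card ≤ 3 := (card_le_card sdiff_subset).trans h3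
  unfold mu
  omega

/-- The graph of a least part is connected. -/
theorem con_of_min (hP : Part H X₀ (cell c) N pos Pi)
    (hz : z ∈ Pi) (hcon : D.Connected)
    (hc : ∀ t ∈ X₀, IsE D H (c t))
    (hmin : ∀ N' pos' Pi', Part H X₀ (cell c) N' pos' Pi' → mu N pos Pi ≤ mu N' pos' Pi') :
    (gr H N pos Pi z).Connected := by
  classical
  set zV : {x : Fin n // x ∈ N.image pos ∪ Pi} := ⟨z, mem_union_right _ hz⟩ with hzV
  have hPi : ∀ x : {x : Fin n // x ∈ N.image pos ∪ Pi}, x.1 ∈ Pi →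
      (gr H N pos Pi z).Reachable x zV := by
    intro x hx
    by_cases h : x = zV
    · rw [h]
    · exact SimpleGraph.Adj.reachable ⟨h, Or.inr ⟨hx, hz, Or.inr rfl⟩⟩
  have hN : ∀ v (hv : v ∈ N), (gr H N pos Pi z).Reachable (em N pos Pi v hv) zV := by
    intro v₀ hv₀
    by_contra hno
    set N0 : Finset (Fin n) := N.filter (fun v => ∃ hv : v ∈ N,
      (gr H N pos Pi z).Reachable (em N pos Pi v₀ hv₀) (em N pos Pi v hv)) with hN0
    have hmem : ∀ v, v ∈ N0 ↔ ∃ hv : v ∈ N,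
        (gr H N pos Pi z).Reachable (em N pos Pi v₀ hv₀) (em N pos Pi v hv) := by
      intro v
      rw [hN0, mem_filter]
      exact ⟨fun h => h.2, fun h => ⟨h.1, h⟩⟩
    have hsub : N0 ⊆ N := filter_subset _ _
    have hnoPi : ∀ v ∈ N0, pos v ∉ Pi := by
      intro v hv hvP
      obtain ⟨hv1, hv2⟩ := (hmem v).1 hv
      exact hno (hv2.trans (hPi _ hvP))
    have hclosed : ∀ v ∈ N0, ∀ t ∈ X₀, v ∈ cell c t → cell c t ⊆ N0 := by
      intro v hv t ht hvt
      obtain ⟨hv1, hv2⟩ := (hmem v).1 hv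
      have hA : cell c t ⊆ N := by
        by_contra hA
        exact hnoPi v hv (hP.ex3 v hv1 t ht hvt hA)
      intro u hu
      exact (hmem u).2 ⟨hA hu, hv2.trans (em_reach hP hcon hc ht hA hvt hu)⟩
    have hv0 : v₀ ∈ N0 := (hmem v₀).2 ⟨hv₀, SimpleGraph.Reachable.refl _⟩
    have hP0 : Part H X₀ (cell c) N0 pos {pos v₀} := by
      refine ⟨fun v hv => hP.sub v (hsub hv), fun u hu v hv => hP.inj u (hsub hu) v (hsub hv),
        fun u hu v hv => hP.adj u (hsub hu) v (hsub hv),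
        ⟨by simp, pos v₀, mem_singleton_self _, fun x hx => Or.inl (mem_singleton.1 hx)⟩,
        ?_, ?_, ?_, ?_⟩
      · intro v hv t ht u hu huN hvu
        obtain ⟨hv1, hv2⟩ := (hmem v).1 hv
        exfalso
        by_cases huN' : u ∈ N
        · exact huN ((hmem u).2 ⟨huN', hv2.trans (em_adj hP hv1 huN' hvu).reachable⟩)
        · exact hnoPi v hv (hP.ex v hv1 t ht u hu huN' hvu)
      · intro v hv t ht hvt hA
        exact absurd (hclosed v hv t ht hvt) hA
      · obtain ⟨t, ht, hvt⟩ := hP.sub v₀ hv₀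
        exact ⟨t, ht, hclosed v₀ hv0 t ht hvt⟩
      · left
        refine (Set.ncard_le_ncard (t := ({pos v₀} : Set (Fin n))) ?_ (Set.toFinite _)).trans ?_
        · rintro x ⟨hx, -⟩
          exact mem_singleton.1 hx
        · simp
    have h1 := hmin _ _ _ hP0
    have h2 : (({pos v₀} : Finset (Fin n)) \ N0.image pos).card = 0 := by
      rw [card_eq_zero, sdiff_eq_empty_iff_subset, singleton_subset_iff]
      exact mem_image_of_mem pos hv0
    by_cases hNN : N0 = N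
    · have h3 : Pi \ N.image pos = Pi := by
        rw [Finset.sdiff_eq_self_iff_disjoint, disjoint_left]
        intro x hx hx'
        obtain ⟨v, hv, rfl⟩ := mem_image.1 hx'
        rw [← hNN] at hv
        exact hnoPi v hv hx
      have h4 : 0 < Pi.card := card_pos.2 ⟨z, hz⟩
      unfold mu at h1
      rw [h3] at h1
      rw [hNN] at h1 h2
      omega
    · have h3 : N0.card < N.card := card_lt_card (hsub.ssubset_of_ne hNN)
      unfold mu at h1
      omega
  have hall : ∀ x, (gr H N pos Pi z).Reachable x zV := by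
    rintro ⟨x, hx⟩
    by_cases h : x ∈ Pi
    · exact hPi ⟨x, hx⟩ h
    · have h1 := hx
      rw [mem_union] at h1
      obtain ⟨v, hv, rfl⟩ := mem_image.1 (h1.resolve_right h)
      exact hN v hv
  have : Nonempty {x : Fin n // x ∈ N.image pos ∪ Pi} := ⟨zV⟩
  exact ⟨fun x y => (hall x).trans (hall y).symm⟩

/-- If the graph of a part is rigid, the part is a copy and `D` has a small vertex cover. -/
theorem cover_of_rig (hD : MaxR H p D) (hP : Part H X₀ (cell c) N pos Pi)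
    (hz' : ∀ x ∈ Pi, x = z ∨ H.Adj z x) (hc : ∀ t ∈ X₀, IsE D H (c t))
    (hct : ∀ t ∈ X₀, ∃ i, c t i = t) (hcX : ∀ t ∈ X₀, ∀ i, c t i ∈ X₀ → c t i = t)
    (hcb : ∀ t ∈ X₀, ∀ i j, D.Adj i j → c t i ≠ t → c t j ≠ t →
      ∃ x ∈ X₀, x ≠ t ∧ (H.Adj x (c t i) ∨ H.Adj x (c t j)))
    (hR : Rig H p (gr H N pos Pi z)) :
    ∃ C : Finset (Fin d), C.card ≤ 3 ∧ ∀ u v, D.Adj u v → u ∈ C ∨ v ∈ C := by
  classical
  obtain ⟨t, ht, hA⟩ := hP.cell
  have hm : ∀ k, c t k ∈ N := fun k => hA (mem_cell.2 ⟨k, rfl⟩)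
  have he : Injective (fun k => em N pos Pi (c t k) (hm k)) := fun i j h =>
    (hc t ht).1 (hP.inj _ (hm i) _ (hm j) (congrArg Subtype.val h))
  have hea : ∀ i j, D.Adj i j → (gr H N pos Pi z).Adj (em N pos Pi (c t i) (hm i))
      (em N pos Pi (c t j) (hm j)) := fun i j h =>
    em_adj hP (hm i) (hm j) ((hc t ht).2 i j h)
  obtain ⟨hsurj, -⟩ := hD.max _ (gr H N pos Pi z)
    ⟨Subtype.val, Subtype.val_injective, fun x y h => gr_sub hP hz' h⟩ hR _ he hea
  have hNA : ∀ v ∈ N, ∃ i, c t i = v := by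
    intro v hv
    obtain ⟨i, hi⟩ := hsurj (em N pos Pi v hv)
    exact ⟨i, hP.inj _ (hm i) _ hv (congrArg Subtype.val hi)⟩
  have hPiA : ∀ x ∈ Pi, ∃ i, pos (c t i) = x := by
    intro x hx
    obtain ⟨i, hi⟩ := hsurj ⟨x, mem_union_right _ hx⟩
    exact ⟨i, congrArg Subtype.val hi⟩
  have hcard : Pi.card ≤ 2 := by
    rcases hP.few with h | ⟨u, hu, v, hv, h1, h2⟩
    · have h3 : {x : Fin n | x ∈ Pi ∧ ∃ v ∈ N, pos v = x} = (Pi : Set (Fin n)) := by
        ext x
        constructor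
        · exact fun h => h.1
        · intro hx
          obtain ⟨i, hi⟩ := hPiA x hx
          exact ⟨hx, c t i, hm i, hi⟩
      rwa [h3, Set.ncard_coe_finset] at h
    · obtain ⟨i, rfl⟩ := hNA u hu
      obtain ⟨j, rfl⟩ := hNA v hv
      refine absurd ((hc t ht).2 i j (hD.p0 (fun k => pos (c t k)) ?_ ?_ i j h1)) h2
      · exact fun a b h => (hc t ht).1 (hP.inj _ (hm a) _ (hm b) h)
      · exact fun a b h => hP.adj _ (hm a) _ (hm b) ((hc t ht).2 a b h)
  refine ⟨univ.filter (fun i => c t i = t) ∪ univ.filter (fun i => pos (c t i) ∈ Pi), ?_, ?_⟩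
  · have h1 : (univ.filter (fun i => c t i = t)).card ≤ 1 := by
      rw [card_le_one]
      intro a ha b hb
      exact (hc t ht).1 ((mem_filter.1 ha).2.trans (mem_filter.1 hb).2.symm)
    have h2 : (univ.filter (fun i => pos (c t i) ∈ Pi)).card ≤ Pi.card := by
      refine card_le_card_of_injOn (fun i => pos (c t i)) ?_ ?_
      · intro i hi
        exact (mem_filter.1 hi).2
      · intro a _ b _ h
        exact (hc t ht).1 (hP.inj _ (hm a) _ (hm b) h)
    have h3 := card_union_le (univ.filter (fun i => c t i = t))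
      (univ.filter (fun i => pos (c t i) ∈ Pi))
    omega
  · intro u v huv
    have key : ∀ i x, x ∈ X₀ → x ≠ t → H.Adj x (c t i) → pos (c t i) ∈ Pi := by
      intro i x hx hxt hxi
      obtain ⟨k, hk⟩ := hct x hx
      refine hP.ex (c t i) (hm i) x hx x (mem_cell.2 ⟨k, hk⟩) ?_ hxi.symm
      intro hxN
      obtain ⟨j, hj⟩ := hNA x hxN
      exact hxt (hj.symm.trans (hcX t ht j (hj ▸ hx)))
    by_cases h1 : c t u = t
    · exact Or.inl (mem_union_left _ (mem_filter.2 ⟨mem_univ _, h1⟩))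
    by_cases h2 : c t v = t
    · exact Or.inr (mem_union_left _ (mem_filter.2 ⟨mem_univ _, h2⟩))
    obtain ⟨x, hx, hxt, h | h⟩ := hcb t ht u v huv h1 h2
    · exact Or.inl (mem_union_right _ (mem_filter.2 ⟨mem_univ _, key u x hx hxt h⟩))
    · exact Or.inr (mem_union_right _ (mem_filter.2 ⟨mem_univ _, key v x hx hxt h⟩))

/-- The kernel. -/
def ker (N : Finset (Fin n)) (pos : Fin n → Fin n) (Pi : Finset (Fin n)) :
    Finset {x : Fin n // x ∈ N.image pos ∪ Pi} := univ.filter (fun x => x.1 ∈ Pi)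

/-- The cells. -/
def AAc (c : Fin n → Fin d → Fin n) (X₀ N : Finset (Fin n)) (pos : Fin n → Fin n)
    (Pi : Finset (Fin n)) : Set (Finset {x : Fin n // x ∈ N.image pos ∪ Pi}) :=
  {B | ∃ t ∈ X₀, cell c t ⊆ N ∧ ∀ x, x ∈ B ↔ ∃ v ∈ cell c t, pos v = x.1}

theorem cells_of (hD : MaxR H p D) (hP : Part H X₀ (cell c) N pos Pi) (hz : z ∈ Pi)
    (hc : ∀ t ∈ X₀, IsE D H (c t))
    (hcon : (gr H N pos Pi z).Connected) :
    Cells H p (gr H N pos Pi z) (ker N pos Pi) ⟨z, mem_union_right _ hz⟩ (AAc c X₀ N pos Pi) := by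
  classical
  refine ⟨hcon, ?_, ?_, ?_, ?_, ?_, ?_⟩
  · refine le_trans ?_ hP.star.1
    refine card_le_card_of_injOn Subtype.val ?_ (fun a _ b _ h => Subtype.ext h)
    intro x hx
    exact (mem_filter.1 hx).2
  · exact mem_filter.2 ⟨mem_univ _, hz⟩
  · intro x hx
    by_cases h : x = ⟨z, mem_union_right _ hz⟩
    · exact Or.inl h
    · exact Or.inr ⟨fun h' => h h'.symm, Or.inr ⟨hz, (mem_filter.1 hx).2, Or.inl rfl⟩⟩
  · rintro ⟨x, hx⟩ hxK
    have hxPi : x ∉ Pi := fun h => hxK (mem_filter.2 ⟨mem_univ _, h⟩)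
    have h1 := hx
    rw [mem_union] at h1
    obtain ⟨v, hv, rfl⟩ := mem_image.1 (h1.resolve_right hxPi)
    obtain ⟨t, ht, hvt⟩ := hP.sub v hv
    have hA : cell c t ⊆ N := by
      by_contra hA
      exact hxPi (hP.ex3 v hv t ht hvt hA)
    refine ⟨univ.filter (fun x => ∃ v ∈ cell c t, pos v = x.1), ⟨t, ht, hA, fun x => ?_⟩, ?_⟩
    · rw [mem_filter]
      exact ⟨fun h => h.2, fun h => ⟨mem_univ _, h⟩⟩
    · exact mem_filter.2 ⟨mem_univ _, v, hvt, rfl⟩
  · obtain ⟨t, ht, hA⟩ := hP.cell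
    refine ⟨univ.filter (fun x => ∃ v ∈ cell c t, pos v = x.1), ⟨t, ht, hA, fun x => ?_⟩⟩
    rw [mem_filter]
    exact ⟨fun h => h.2, fun h => ⟨mem_univ _, h⟩⟩
  · rintro B ⟨t, ht, hA, hB⟩
    have hm : ∀ k, c t k ∈ N := fun k => hA (mem_cell.2 ⟨k, rfl⟩)
    have hmB : ∀ k, em N pos Pi (c t k) (hm k) ∈ B := fun k =>
      (hB _).2 ⟨c t k, mem_cell.2 ⟨k, rfl⟩, rfl⟩
    refine hD.rig.map (fun k => ⟨em N pos Pi (c t k) (hm k), hmB k⟩) ?_ ?_ ?_
    · intro a b h
      exact (hc t ht).1 (hP.inj _ (hm a) _ (hm b)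
        (congrArg Subtype.val (congrArg Subtype.val h)))
    · rintro ⟨x, hx⟩
      obtain ⟨v, hv, hvx⟩ := (hB x).1 hx
      obtain ⟨k, rfl⟩ := mem_cell.1 hv
      exact ⟨k, Subtype.ext (Subtype.ext hvx)⟩
    · intro a b h
      exact em_adj hP (hm a) (hm b) ((hc t ht).2 a b h)

/-- A part whose graph is not rigid has a leaf. -/
theorem leaf_of (hD : MaxR H p D) (hP : Part H X₀ (cell c) N pos Pi) (hz : z ∈ Pi)
    (hc : ∀ t ∈ X₀, IsE D H (c t))
    (hcon : (gr H N pos Pi z).Connected) (hH : H.Connected) (hp : 1 ≤ p)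
    (hE1 : LeafE1Statement) (hE2 : LeafE2Statement) (hR : ¬ Rig H p (gr H N pos Pi z)) :
    ∃ (N' : Finset {x : Fin n // x ∈ N.image pos ∪ Pi})
      (pos' : {x : Fin n // x ∈ N.image pos ∪ Pi} → Fin n) (Pi' : Finset (Fin n)),
      N' ≠ univ ∧ Leaf H (gr H N pos Pi z) (ker N pos Pi) ⟨z, mem_union_right _ hz⟩
        (AAc c X₀ N pos Pi) N' pos' Pi' := by
  classical
  have hcells := cells_of hD hP hz hc hcon
  have hcard : Fintype.card {x : Fin n // x ∈ N.image pos ∪ Pi} ≤ n := by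
    refine (Fintype.card_subtype_le _).trans ?_
    rw [Fintype.card_fin]
  by_contra hno
  apply hR
  refine ⟨?_, ?_, ?_⟩
  · rintro ⟨κ⟩
    obtain ⟨t, ht, hA⟩ := hP.cell
    have hm : ∀ k, c t k ∈ N := fun k => hA (mem_cell.2 ⟨k, rfl⟩)
    exact hD.rig.ncol ⟨fun k => κ (em N pos Pi (c t k) (hm k)), fun {a b} hab =>
      κ.valid (em_adj hP (hm a) (hm b) ((hc t ht).2 a b hab))⟩
  · intro Y _ P hP' Z S Γ A F hF
    by_contra h
    exact hno (hE1 n p H _ _ _ _ _ hH hp hcells hcard Y P hP' Z S Γ A F hF h)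
  · intro s xs ys Bl J C ty io R A F hF
    by_contra h
    exact hno (hE2 n p H _ _ _ _ _ hH hp hcells hcard s xs ys Bl J C ty io R A F hF h)

/-- The positions of the new part. -/
noncomputable def pos2 (N : Finset (Fin n)) (pos : Fin n → Fin n) (Pi : Finset (Fin n))
    (pos' : {x : Fin n // x ∈ N.image pos ∪ Pi} → Fin n) (v : Fin n) : Fin n := by
  classical exact if hv : v ∈ N then pos' (em N pos Pi v hv) else v

theorem pos2_eq {pos' : {x : Fin n // x ∈ N.image pos ∪ Pi} → Fin n} {v : Fin n} (hv : v ∈ N) :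
    pos2 N pos Pi pos' v = pos' (em N pos Pi v hv) := by
  simp [pos2, hv]

/-- A part whose graph has a leaf is not a least one. -/
theorem step_of (hP : Part H X₀ (cell c) N pos Pi) (hz : z ∈ Pi)
    (hct : ∀ t ∈ X₀, ∃ i, c t i = t)
    {N' : Finset {x : Fin n // x ∈ N.image pos ∪ Pi}}
    {pos' : {x : Fin n // x ∈ N.image pos ∪ Pi} → Fin n} {Pi' : Finset (Fin n)}
    (hN' : N' ≠ univ) (hL : Leaf H (gr H N pos Pi z) (ker N pos Pi) ⟨z, mem_union_right _ hz⟩
        (AAc c X₀ N pos Pi) N' pos' Pi') :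
    ∃ N2 p2 Pi2, Part H X₀ (cell c) N2 p2 Pi2 ∧ mu N2 p2 Pi2 < mu N pos Pi := by
  classical
  set N2 : Finset (Fin n) := N.filter (fun v => ∃ hv : v ∈ N, em N pos Pi v hv ∈ N') with hN2
  have hmem : ∀ v, v ∈ N2 ↔ ∃ hv : v ∈ N, em N pos Pi v hv ∈ N' := by
    intro v
    rw [hN2, mem_filter]
    exact ⟨fun h => h.2, fun h => ⟨h.1, h⟩⟩
  have hsub : N2 ⊆ N := filter_subset _ _
  have hinj : ∀ u ∈ N2, ∀ v ∈ N2, pos2 N pos Pi pos' u = pos2 N pos Pi pos' v → u = v := by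
    intro u hu v hv h
    obtain ⟨hu1, hu2⟩ := (hmem u).1 hu
    obtain ⟨hv1, hv2⟩ := (hmem v).1 hv
    rw [pos2_eq hu1, pos2_eq hv1] at h
    exact hP.inj u hu1 v hv1 (congrArg Subtype.val (hL.inj _ hu2 _ hv2 h))
  have hadj : ∀ u ∈ N2, ∀ v ∈ N2, H.Adj u v →
      H.Adj (pos2 N pos Pi pos' u) (pos2 N pos Pi pos' v) := by
    intro u hu v hv h
    obtain ⟨hu1, hu2⟩ := (hmem u).1 hu
    obtain ⟨hv1, hv2⟩ := (hmem v).1 hv
    rw [pos2_eq hu1, pos2_eq hv1]
    exact hL.adj _ hu2 _ hv2 (em_adj hP hu1 hv1 h)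
  have hker : ∀ v (hv : v ∈ N), pos v ∈ Pi → em N pos Pi v hv ∈ ker N pos Pi := fun v hv h =>
    mem_filter.2 ⟨mem_univ _, h⟩
  by_cases hNN : N2 = N
  · -- the whole of `N`
    have hall : ∀ v (hv : v ∈ N), em N pos Pi v hv ∈ N' := by
      intro v hv
      rw [← hNN] at hv
      exact ((hmem v).1 hv).2
    obtain ⟨w₀, hw₀⟩ : ∃ w, w ∉ N' := by
      by_contra h
      push Not at h
      exact hN' (eq_univ_iff_forall.2 h)
    have hw₀N : w₀.1 ∉ N.image pos := by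
      intro h
      obtain ⟨v, hv, hvw⟩ := mem_image.1 h
      apply hw₀
      have h1 := hall v hv
      have h2 : em N pos Pi v hv = w₀ := Subtype.ext hvw
      rwa [h2] at h1
    have hw₀P : w₀.1 ∈ Pi := (mem_union.1 w₀.2).resolve_left hw₀N
    have hkcard : (ker N pos Pi).card ≤ 3 := by
      refine le_trans ?_ hP.star.1
      refine card_le_card_of_injOn Subtype.val ?_ (fun a _ b _ h => Subtype.ext h)
      intro x hx
      exact (mem_filter.1 hx).2
    set KN := (ker N pos Pi).filter (fun x => x ∈ N') with hKN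
    have hKNc : KN.card ≤ 2 := by
      have h1 : KN ⊂ ker N pos Pi := by
        refine (filter_subset _ _).ssubset_of_ne fun h => ?_
        have h2 : w₀ ∈ ker N pos Pi := mem_filter.2 ⟨mem_univ _, hw₀P⟩
        rw [← h] at h2
        exact hw₀ (mem_filter.1 h2).2
      have h3 := card_lt_card h1
      omega
    have hstK : ∀ x ∈ ker N pos Pi, x ≠ ⟨z, mem_union_right _ hz⟩ →
        (gr H N pos Pi z).Adj ⟨z, mem_union_right _ hz⟩ x := fun x hx hne =>
      ⟨fun h' => hne h'.symm, Or.inr ⟨hz, (mem_filter.1 hx).2, Or.inl rfl⟩⟩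
    have hinjN : ∀ u ∈ N, ∀ v ∈ N, pos2 N pos Pi pos' u = pos2 N pos Pi pos' v → u = v := by
      rw [hNN] at hinj
      exact hinj
    have hadjN : ∀ u ∈ N, ∀ v ∈ N, H.Adj u v →
        H.Adj (pos2 N pos Pi pos' u) (pos2 N pos Pi pos' v) := by
      rw [hNN] at hadj
      exact hadj
    by_cases hne : KN.Nonempty
    · have hP2 : Part H X₀ (cell c) N (pos2 N pos Pi pos') (KN.image pos') := by
        have hcard : (KN.image pos').card ≤ 2 := card_image_le.trans hKNc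
        have hexit : ∀ v ∈ N, pos v ∈ Pi → pos2 N pos Pi pos' v ∈ KN.image pos' := by
          intro v hv h
          rw [pos2_eq hv]
          exact mem_image_of_mem _ (mem_filter.2 ⟨hker v hv h, hall v hv⟩)
        refine ⟨hP.sub, hinjN, hadjN, ⟨by omega, ?_⟩, ?_, ?_, hP.cell, Or.inl ?_⟩
        · by_cases hzN : (⟨z, mem_union_right _ hz⟩ : {x : Fin n // x ∈ N.image pos ∪ Pi}) ∈ N'
          · refine ⟨pos' ⟨z, mem_union_right _ hz⟩, mem_image_of_mem _
              (mem_filter.2 ⟨mem_filter.2 ⟨mem_univ _, hz⟩, hzN⟩), ?_⟩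
            intro x hx
            obtain ⟨k, hk, rfl⟩ := mem_image.1 hx
            by_cases h : k = ⟨z, mem_union_right _ hz⟩
            · exact Or.inl (by rw [h])
            · exact Or.inr (hL.adj _ hzN _ (mem_filter.1 hk).2
                (hstK k (mem_filter.1 hk).1 h))
          · obtain ⟨k₀, hk₀⟩ := hne
            refine ⟨pos' k₀, mem_image_of_mem _ hk₀, ?_⟩
            intro x hx
            obtain ⟨k, hk, rfl⟩ := mem_image.1 hx
            by_cases h : k = k₀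
            · exact Or.inl (by rw [h])
            · refine Or.inr (hL.tri hzN _ (mem_filter.1 hk₀).2 _ (mem_filter.1 hk).2
                (fun h' => h h'.symm) (hstK _ (mem_filter.1 hk₀).1 ?_)
                (hstK _ (mem_filter.1 hk).1 ?_))
              · rintro rfl
                exact hzN (mem_filter.1 hk₀).2
              · rintro rfl
                exact hzN (mem_filter.1 hk).2
        · exact fun v hv t ht u hu huN hvu => hexit v hv (hP.ex v hv t ht u hu huN hvu)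
        · exact fun v hv t ht hvt hA => hexit v hv (hP.ex3 v hv t ht hvt hA)
        · refine (Set.ncard_le_ncard (t := ((KN.image pos' : Finset (Fin n)) : Set (Fin n))) ?_
            (Set.toFinite _)).trans ?_
          · exact fun x hx => hx.1
          · rwa [Set.ncard_coe_finset]
      refine ⟨N, pos2 N pos Pi pos', KN.image pos', hP2, ?_⟩
      have h1 : (KN.image pos' \ N.image (pos2 N pos Pi pos')) ⊆
          (KN.filter (fun k => k.1 ∉ N.image pos)).image pos' := by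
        intro x hx
        obtain ⟨hx1, hx2⟩ := mem_sdiff.1 hx
        obtain ⟨k, hk, rfl⟩ := mem_image.1 hx1
        refine mem_image_of_mem _ (mem_filter.2 ⟨hk, fun hk' => hx2 ?_⟩)
        obtain ⟨v, hv, hvk⟩ := mem_image.1 hk'
        refine mem_image.2 ⟨v, hv, ?_⟩
        rw [pos2_eq hv]
        exact congrArg pos' (Subtype.ext hvk)
      have h2 : (KN.filter (fun k => k.1 ∉ N.image pos)).card ≤
          ((Pi \ N.image pos).erase w₀.1).card := by
        refine card_le_card_of_injOn Subtype.val ?_ (fun a _ b _ h => Subtype.ext h)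
        intro x hx
        obtain ⟨hx1, hx2⟩ := mem_filter.1 hx
        obtain ⟨hx3, hx4⟩ := mem_filter.1 hx1
        refine mem_coe.2 (mem_erase.2 ⟨fun h => ?_, mem_sdiff.2 ⟨(mem_filter.1 hx3).2, hx2⟩⟩)
        have h5 : x = w₀ := Subtype.ext h
        rw [h5] at hx4
        exact hw₀ hx4
      have h3 : ((Pi \ N.image pos).erase w₀.1).card + 1 = (Pi \ N.image pos).card :=
        card_erase_add_one (mem_sdiff.2 ⟨hw₀P, hw₀N⟩)
      have h4 := (card_le_card h1).trans (card_image_le.trans h2)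
      unfold mu
      omega
    · -- no exits at all
      obtain ⟨t, ht, hA⟩ := hP.cell
      have hnoex : ∀ v ∈ N, pos v ∉ Pi := fun v hv h =>
        hne ⟨_, mem_filter.2 ⟨hker v hv h, hall v hv⟩⟩
      obtain ⟨i₀, hi₀⟩ := hct t ht
      have hv₀ : c t i₀ ∈ N := hA (mem_cell.2 ⟨i₀, rfl⟩)
      set v₀ := c t i₀
      refine ⟨N, pos2 N pos Pi pos', {pos2 N pos Pi pos' v₀}, ⟨hP.sub, hinjN, hadjN,
        ⟨by simp, _, mem_singleton_self _, fun x hx => Or.inl (mem_singleton.1 hx)⟩,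
        fun v hv t ht u hu huN hvu => absurd (hP.ex v hv t ht u hu huN hvu) (hnoex v hv),
        fun v hv t ht hvt hA => absurd (hP.ex3 v hv t ht hvt hA) (hnoex v hv),
        hP.cell, Or.inl ?_⟩, ?_⟩
      · refine (Set.ncard_le_ncard (t := ({pos2 N pos Pi pos' v₀} : Set (Fin n))) ?_
          (Set.toFinite _)).trans ?_
        · rintro x ⟨hx, -⟩
          exact mem_singleton.1 hx
        · simp
      · have h2 : (({pos2 N pos Pi pos' v₀} : Finset (Fin n)) \
            N.image (pos2 N pos Pi pos')).card = 0 := by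
          rw [card_eq_zero, sdiff_eq_empty_iff_subset, singleton_subset_iff]
          exact mem_image_of_mem _ hv₀
        have h3 : 0 < (Pi \ N.image pos).card := card_pos.2 ⟨w₀.1, mem_sdiff.2 ⟨hw₀P, hw₀N⟩⟩
        unfold mu
        omega
  · -- a proper subset
    refine ⟨N2, pos2 N pos Pi pos', Pi', ⟨fun v hv => hP.sub v (hsub hv), hinj, hadj, hL.star,
      ?_, ?_, ?_, ?_⟩, mu_lt_of_subset (hsub.ssubset_of_ne hNN) hL.star.1⟩
    · intro v hv t ht u hu huN hvu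
      obtain ⟨hv1, hv2⟩ := (hmem v).1 hv
      rw [pos2_eq hv1]
      by_cases huN' : u ∈ N
      · refine hL.ex2 _ hv2 (em N pos Pi u huN') (fun h => huN ((hmem u).2 ⟨huN', h⟩))
          (em_adj hP hv1 huN' hvu)
      · exact hL.ex1 _ hv2 (hker v hv1 (hP.ex v hv1 t ht u hu huN' hvu))
    · intro v hv t ht hvt hA
      obtain ⟨hv1, hv2⟩ := (hmem v).1 hv
      rw [pos2_eq hv1]
      by_cases hA' : cell c t ⊆ N
      · refine hL.ex3 _ hv2 (univ.filter (fun x => ∃ v ∈ cell c t, pos v = x.1))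
          ⟨t, ht, hA', fun x => ?_⟩ ?_ ?_
        · rw [mem_filter]
          exact ⟨fun h => h.2, fun h => ⟨mem_univ _, h⟩⟩
        · exact mem_filter.2 ⟨mem_univ _, v, hvt, rfl⟩
        · intro hsubN
          apply hA
          intro u hu
          exact (hmem u).2 ⟨hA' hu, hsubN (mem_filter.2 ⟨mem_univ _, u, hu, rfl⟩)⟩
      · exact hL.ex1 _ hv2 (hker v hv1 (hP.ex3 v hv1 t ht hvt hA'))
    · obtain ⟨B, ⟨t, ht, hA, hB⟩, hBN⟩ := hL.cell
      refine ⟨t, ht, fun v hv => (hmem v).2 ⟨hA hv, hBN ((hB _).2 ⟨v, hv, rfl⟩)⟩⟩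
    · have hnew : ∀ x ∈ N', x.1 ∉ N.image pos →
          {a : Fin n | a ∈ Pi' ∧ ∃ v ∈ N2, pos2 N pos Pi pos' v = a}.ncard ≤ 2 := by
        intro x hx hxN
        have hxP : x.1 ∈ Pi := (mem_union.1 x.2).resolve_left hxN
        have h1 : pos' x ∈ Pi' := hL.ex1 x hx (mem_filter.2 ⟨mem_univ _, hxP⟩)
        refine (Set.ncard_le_ncard (t := ((Pi'.erase (pos' x) : Finset (Fin n)) : Set (Fin n)))
          ?_ (Set.toFinite _)).trans ?_
        · rintro a ⟨ha, v, hv, rfl⟩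
          obtain ⟨hv1, hv2⟩ := (hmem v).1 hv
          refine mem_coe.2 (mem_erase.2 ⟨?_, ha⟩)
          intro h
          rw [pos2_eq hv1] at h
          have h2 := hL.inj _ hv2 _ hx h
          apply hxN
          rw [← h2]
          exact mem_image_of_mem _ hv1
        · rw [Set.ncard_coe_finset]
          have h2 := card_erase_add_one h1
          have h3 := hL.star.1
          omega
      rcases hL.few with h | ⟨x, hx, y, hy, h1, h2⟩
      · left
        refine (Set.ncard_le_ncard ?_ (Set.toFinite _)).trans h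
        rintro a ⟨ha, v, hv, rfl⟩
        obtain ⟨hv1, hv2⟩ := (hmem v).1 hv
        exact ⟨ha, _, hv2, (pos2_eq hv1).symm⟩
      · by_cases hx1 : x.1 ∈ N.image pos
        · by_cases hy1 : y.1 ∈ N.image pos
          · obtain ⟨u, hu, hux⟩ := mem_image.1 hx1
            obtain ⟨v, hv, hvy⟩ := mem_image.1 hy1
            have e1 : em N pos Pi u hu = x := Subtype.ext hux
            have e2 : em N pos Pi v hv = y := Subtype.ext hvy
            right
            refine ⟨u, (hmem u).2 ⟨hu, e1 ▸ hx⟩, v, (hmem v).2 ⟨hv, e2 ▸ hy⟩, ?_, ?_⟩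
            · rw [pos2_eq hu, pos2_eq hv, e1, e2]
              exact h1
            · intro h
              apply h2
              have h3 := em_adj (z := z) hP hu hv h
              rwa [e1, e2] at h3
          · exact Or.inl (hnew y hy hy1)
        · exact Or.inl (hnew x hx hx1)

/-- The leaf lemma, rows R2 and R3 of finding 4844 (with 4872). -/
theorem leaf_lemma0 (hD : MaxR H p D) (hH : H.Connected) (hp : 1 ≤ p) (hE1 : LeafE1Statement)
    (hE2 : LeafE2Statement) (hI : Ind H X₀) (hM : Meets H D X₀)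
    (hmin : ∀ X, Ind H X → Meets H D X → X₀.card ≤ X.card) :
    (∃ (X' : Finset (Fin n)) (s : ℕ) (xs ys : Fin s → Fin n), 1 ≤ s ∧ Ind H X' ∧
      X'.card + 1 = X₀.card ∧ XG H X' xs ys ∧
      ∀ f, IsE D H f → (∀ i, f i ∉ X') → ∃ j i i', f i = xs j ∧ f i' = ys j) ∨
    ∃ C : Finset (Fin d), C.card ≤ 3 ∧ ∀ u v, D.Adj u v → u ∈ C ∨ v ∈ C := by
  classical
  by_cases hgood : ∃ t ∈ X₀, ∀ f, IsE D H f → (∃ i, f i = t) → (∀ i, f i ∈ X₀ → f i = t) →
      ∃ i j, D.Adj i j ∧ f i ≠ t ∧ f j ≠ t ∧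
        ∀ x ∈ X₀, x ≠ t → ¬ H.Adj x (f i) ∧ ¬ H.Adj x (f j)
  · obtain ⟨t, ht, h⟩ := hgood
    exact Or.inl (alt0 hD hI hM hmin ht h)
  right
  push Not at hgood
  have hch : ∀ t, ∃ f : Fin d → Fin n, t ∈ X₀ → IsE D H f ∧ (∃ i, f i = t) ∧
      (∀ i, f i ∈ X₀ → f i = t) ∧ ∀ i j, D.Adj i j → f i ≠ t → f j ≠ t →
        ∃ x ∈ X₀, x ≠ t ∧ (H.Adj x (f i) ∨ H.Adj x (f j)) := by
    intro t
    by_cases ht : t ∈ X₀
    · obtain ⟨f, h1, h2, h3, h4⟩ := hgood t ht
      refine ⟨f, fun _ => ⟨h1, h2, h3, fun i j hij hi hj => ?_⟩⟩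
      obtain ⟨x, hx, hxt, h5⟩ := h4 i j hij hi hj
      refine ⟨x, hx, hxt, ?_⟩
      by_cases h6 : H.Adj x (f i)
      · exact Or.inl h6
      · exact Or.inr (h5 h6)
    · obtain ⟨f, hf, hf'⟩ := hD.emb
      exact ⟨f, fun h => absurd h ht⟩
  choose c hc using hch
  have hc1 : ∀ t ∈ X₀, IsE D H (c t) := fun t ht => (hc t ht).1
  have hct : ∀ t ∈ X₀, ∃ i, c t i = t := fun t ht => (hc t ht).2.1
  have hcX : ∀ t ∈ X₀, ∀ i, c t i ∈ X₀ → c t i = t := fun t ht => (hc t ht).2.2.1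
  have hcb : ∀ t ∈ X₀, ∀ i j, D.Adj i j → c t i ≠ t → c t j ≠ t →
      ∃ x ∈ X₀, x ≠ t ∧ (H.Adj x (c t i) ∨ H.Adj x (c t j)) := fun t ht => (hc t ht).2.2.2
  have hDc : D.Connected := hD.rig.connected hD.emb
  -- the first part
  obtain ⟨f₀, hf₀, hf₀'⟩ := hD.emb
  obtain ⟨i₀, hi₀⟩ := hM f₀ ⟨hf₀, hf₀'⟩
  have hex : ∃ m N pos Pi, Part H X₀ (cell c) N pos Pi ∧ mu N pos Pi = m := by
    refine ⟨_, X₀.biUnion (cell c), id, {f₀ i₀}, ⟨?_, fun _ _ _ _ h => h, fun _ _ _ _ h => h,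
      ⟨by simp, _, mem_singleton_self _, fun x hx => Or.inl (mem_singleton.1 hx)⟩, ?_, ?_, ?_,
      Or.inl ?_⟩, rfl⟩
    · intro v hv
      obtain ⟨t, ht, hvt⟩ := mem_biUnion.1 hv
      exact ⟨t, ht, hvt⟩
    · intro v _ t ht u hu huN _
      exact absurd (mem_biUnion.2 ⟨t, ht, hu⟩) huN
    · intro v _ t ht _ hA
      exact absurd (subset_biUnion_of_mem (cell c) ht) hA
    · exact ⟨_, hi₀, subset_biUnion_of_mem (cell c) hi₀⟩
    · refine (Set.ncard_le_ncard (t := ({f₀ i₀} : Set (Fin n))) ?_ (Set.toFinite _)).trans ?_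
      · rintro x ⟨hx, -⟩
        exact mem_singleton.1 hx
      · simp
  obtain ⟨N, pos, Pi, hP, hmu⟩ := Nat.find_spec hex
  have hleast : ∀ N' pos' Pi', Part H X₀ (cell c) N' pos' Pi' →
      mu N pos Pi ≤ mu N' pos' Pi' := by
    intro N' pos' Pi' h
    rw [hmu]
    exact Nat.find_min' hex ⟨N', pos', Pi', h, rfl⟩
  obtain ⟨z, hz, hz'⟩ := hP.star.2
  have hcon := con_of_min hP hz hDc hc1 hleast
  by_cases hR : Rig H p (gr H N pos Pi z)
  · exact cover_of_rig hD hP hz' hc1 hct hcX hcb hR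
  · obtain ⟨N', pos', Pi', hN', hL⟩ := leaf_of hD hP hz hc1 hcon hH hp hE1 hE2 hR
    obtain ⟨N2, p2, Pi2, hP2, hlt⟩ := step_of hP hz hct hN' hL
    exact absurd (hleast _ _ _ hP2) (by omega)

/-- The leaf lemma with `GQFree`. -/
theorem leaf_lemma (hD : MaxR H p D) (hH : H.Connected) (hp : 1 ≤ p) (hE1 : LeafE1Statement)
    (hE2 : LeafE2Statement) (hI : Ind H X₀) (hM : Meets H D X₀)
    (hmin : ∀ X, Ind H X → Meets H D X → X₀.card ≤ X.card) :
    (∃ (X' : Finset (Fin n)) (s : ℕ) (xs ys : Fin s → Fin n), 1 ≤ s ∧ Ind H X' ∧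
      X'.card + 1 = X₀.card ∧ XG H X' xs ys ∧ GQFree H D X' xs ys p) ∨
    ∃ C : Finset (Fin d), C.card ≤ 3 ∧ ∀ u v, D.Adj u v → u ∈ C ∨ v ∈ C := by
  rcases leaf_lemma0 hD hH hp hE1 hE2 hI hM hmin with ⟨X', s, xs, ys, h1, h2, h3, h4, h5⟩ | h
  · exact Or.inl ⟨X', s, xs, ys, h1, h2, h3, h4, gqfree hD h4 h5⟩
  · exact Or.inr h

end

end MP3240L27
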