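import Pool.Agent.Lib.MP_3240be_co.L27.Lef
import Pool.Agent.Lib.MP_3240be_co.H56.Le1
import Pool.Agent.Lib.MP_3240be_co.L45.LeafE2

/-!
# MP_3240be_co, T4: the leaf lemma without hypotheses
-/

set_option autoImplicit false

namespace MP3240L27

open Finset MP3240CO MP3240R

/-- The leaf lemma. -/
theorem leaf_lemma' {n d p : ℕ} {H : SimpleGraph (Fin n)} {D : SimpleGraph (Fin d)}
    {X₀ : Finset (Fin n)} (hD : MaxR H p D) (hH : H.Connected) (hp : 1 ≤ p) (hI : Ind H X₀)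
    (hM : Meets H D X₀) (hmin : ∀ X, Ind H X → Meets H D X → X₀.card ≤ X.card) :
    (∃ (X' : Finset (Fin n)) (s : ℕ) (xs ys : Fin s → Fin n), 1 ≤ s ∧ Ind H X' ∧
      X'.card + 1 = X₀.card ∧ XG H X' xs ys ∧ GQFree H D X' xs ys p) ∨
    ∃ C : Finset (Fin d), C.card ≤ 3 ∧ ∀ u v, D.Adj u v → u ∈ C ∨ v ∈ C :=
  leaf_lemma hD hH hp leafE1 MP3240L45.leafE2_statement hI hM hmin

end MP3240L27
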